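import Mathlib

/-! # Corner-free sets inside cosets of a subgroup of `G × G` -/

set_option autoImplicit false

open Finset
open scoped Pointwise

namespace Q153.PC

variable {G : Type*} [AddCommGroup G]

/-- no nontrivial corner `(x, y), (x, y + z), (x + z, y)` -/
def CF (A : Set (G × G)) : Prop :=
  ∀ x y z : G, (x, y) ∈ A → (x, y + z) ∈ A → (x + z, y) ∈ A → z = 0

/-- the elements `z` with `(z, 0) ∈ H` -/
def H1 (H : AddSubgroup (G × G)) : AddSubgroup G := H.comap (AddMonoidHom.inl G G)
/-- the elements `z` with `(0, z) ∈ H` -/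
def H2 (H : AddSubgroup (G × G)) : AddSubgroup G := H.comap (AddMonoidHom.inr G G)

theorem mem_H1 {H : AddSubgroup (G × G)} {z : G} : z ∈ H1 H ↔ (z, (0 : G)) ∈ H := Iff.rfl
theorem mem_H2 {H : AddSubgroup (G × G)} {z : G} : z ∈ H2 H ↔ ((0 : G), z) ∈ H := Iff.rfl

/-- the subgroup `Z` with `Z × Z ≤ H` -/
def Zs (H : AddSubgroup (G × G)) : AddSubgroup G := H1 H ⊓ H2 H

theorem prod_mem {H : AddSubgroup (G × G)} {a b : G} (ha : a ∈ Zs H) (hb : b ∈ Zs H) :
    (a, b) ∈ H := by
  have h1 : (a, (0 : G)) ∈ H := ha.1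
  have h2 : ((0 : G), b) ∈ H := hb.2
  have := H.add_mem h1 h2
  simpa using this

theorem card_le_H1 [Finite G] (H : AddSubgroup (G × G)) :
    Nat.card H ≤ Nat.card G * Nat.card (H1 H) := by
  classical
  let f : H →+ G := (AddMonoidHom.snd G G).comp H.subtype
  have h1 : Nat.card H = Nat.card f.range * Nat.card f.ker := by
    rw [← Nat.card_congr (QuotientAddGroup.quotientKerEquivRange f).toEquiv, mul_comm]
    rw [mul_comm]
    exact f.ker.card_eq_card_quotient_mul_card_addSubgroup
  have h2 : Nat.card f.ker ≤ Nat.card (H1 H) := by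
    refine Nat.card_le_card_of_injective
      (fun x : f.ker => (⟨(x : H).1.1, ?_⟩ : H1 H)) ?_
    · have hx : ((x : H) : G × G).2 = 0 := x.2
      have : (((x : H) : G × G).1, (0 : G)) = ((x : H) : G × G) := by
        rw [← hx]
      rw [mem_H1, this]
      exact (x : H).2
    · intro x y hxy
      have hx : ((x : H) : G × G).2 = 0 := x.2
      have hy : ((y : H) : G × G).2 = 0 := y.2
      have h : ((x : H) : G × G).1 = ((y : H) : G × G).1 := by
        simpa using congrArg Subtype.val hxy
      apply Subtype.ext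
      apply Subtype.ext
      exact Prod.ext h (hx.trans hy.symm)
  have h3 : Nat.card f.range ≤ Nat.card G := Nat.card_le_card_of_injective _ Subtype.val_injective
  rw [h1]
  exact Nat.mul_le_mul h3 h2

theorem card_le_H2 [Finite G] (H : AddSubgroup (G × G)) :
    Nat.card H ≤ Nat.card G * Nat.card (H2 H) := by
  classical
  let f : H →+ G := (AddMonoidHom.fst G G).comp H.subtype
  have h1 : Nat.card H = Nat.card f.range * Nat.card f.ker := by
    rw [← Nat.card_congr (QuotientAddGroup.quotientKerEquivRange f).toEquiv, mul_comm]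
    rw [mul_comm]
    exact f.ker.card_eq_card_quotient_mul_card_addSubgroup
  have h2 : Nat.card f.ker ≤ Nat.card (H2 H) := by
    refine Nat.card_le_card_of_injective
      (fun x : f.ker => (⟨(x : H).1.2, ?_⟩ : H2 H)) ?_
    · have hx : ((x : H) : G × G).1 = 0 := x.2
      have : ((0 : G), ((x : H) : G × G).2) = ((x : H) : G × G) := by
        rw [← hx]
      rw [mem_H2, this]
      exact (x : H).2
    · intro x y hxy
      have hx : ((x : H) : G × G).1 = 0 := x.2
      have hy : ((y : H) : G × G).1 = 0 := y.2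
      have h : ((x : H) : G × G).2 = ((y : H) : G × G).2 := by
        simpa using congrArg Subtype.val hxy
      apply Subtype.ext
      apply Subtype.ext
      exact Prod.ext (hx.trans hy.symm) h
  have h3 : Nat.card f.range ≤ Nat.card G := Nat.card_le_card_of_injective _ Subtype.val_injective
  rw [h1]
  exact Nat.mul_le_mul h3 h2

theorem card_mul_le [Finite G] (P Q : AddSubgroup G) :
    Nat.card P * Nat.card Q ≤ Nat.card G * Nat.card (P ⊓ Q : AddSubgroup G) := by
  classical
  -- the map P × Q → G, (p, q) ↦ p + q has fibres of size at most |P ⊓ Q|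
  let f : P × Q →+ G := (P.subtype.comp (AddMonoidHom.fst P Q)) + (Q.subtype.comp (AddMonoidHom.snd P Q))
  have h1 : Nat.card (P × Q) = Nat.card f.range * Nat.card f.ker := by
    rw [← Nat.card_congr (QuotientAddGroup.quotientKerEquivRange f).toEquiv, mul_comm]
    rw [mul_comm]
    exact f.ker.card_eq_card_quotient_mul_card_addSubgroup
  have h2 : Nat.card f.ker ≤ Nat.card (P ⊓ Q : AddSubgroup G) := by
    refine Nat.card_le_card_of_injective
      (fun x : f.ker => (⟨((x : P × Q).1 : G), ?_⟩ : (P ⊓ Q : AddSubgroup G))) ?_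
    · have hx : (((x : P × Q).1 : G)) + (((x : P × Q).2 : G)) = 0 := x.2
      refine ⟨(x : P × Q).1.2, ?_⟩
      have : (((x : P × Q).1 : G)) = -(((x : P × Q).2 : G)) := eq_neg_of_add_eq_zero_left hx
      rw [this]
      exact Q.neg_mem (x : P × Q).2.2
    · intro x y hxy
      have hx : (((x : P × Q).1 : G)) + (((x : P × Q).2 : G)) = 0 := x.2
      have hy : (((y : P × Q).1 : G)) + (((y : P × Q).2 : G)) = 0 := y.2
      have h : (((x : P × Q).1 : G)) = (((y : P × Q).1 : G)) := by
        simpa using congrArg Subtype.val hxy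
      apply Subtype.ext
      refine Prod.ext (Subtype.ext h) (Subtype.ext ?_)
      have h4 := hx.trans hy.symm
      rw [h] at h4
      exact add_left_cancel h4
  have h3 : Nat.card f.range ≤ Nat.card G := Nat.card_le_card_of_injective _ Subtype.val_injective
  rw [← Nat.card_prod, h1]
  exact Nat.mul_le_mul h3 h2

theorem card_sq_le [Finite G] (H : AddSubgroup (G × G)) :
    Nat.card H ^ 2 ≤ Nat.card G ^ 3 * Nat.card (Zs H) := by
  have h1 := card_le_H1 H
  have h2 := card_le_H2 H
  have h3 := card_mul_le (H1 H) (H2 H)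
  calc Nat.card H ^ 2 = Nat.card H * Nat.card H := sq _
    _ ≤ (Nat.card G * Nat.card (H1 H)) * (Nat.card G * Nat.card (H2 H)) := Nat.mul_le_mul h1 h2
    _ = Nat.card G ^ 2 * (Nat.card (H1 H) * Nat.card (H2 H)) := by ring
    _ ≤ Nat.card G ^ 2 * (Nat.card G * Nat.card (H1 H ⊓ H2 H : AddSubgroup G)) :=
        Nat.mul_le_mul_left _ h3
    _ = _ := by rw [Zs]; ring

/-- a translate of `Z × Z` contains the average share of `B ∩ (t + H)` -/
theorem exists_translate [Finite G] [DecidableEq G] (H : AddSubgroup (G × G)) (B : Finset (G × G))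
    (t : G × G) (hB : ∀ b ∈ B, b - t ∈ H) :
    ∃ (u : G × G) (D : Finset (Zs H × Zs H)),
      (∀ d : Zs H × Zs H, d ∈ D ↔ u + ((d.1 : G), (d.2 : G)) ∈ B) ∧
      B.card * Nat.card (Zs H) ^ 2 ≤ Nat.card H * D.card := by
  classical
  have := Fintype.ofFinite G
  have : Fintype H := Fintype.ofFinite _
  have : Fintype (Zs H) := Fintype.ofFinite _
  let Df : H → Finset (Zs H × Zs H) := fun h =>
    univ.filter (fun d : Zs H × Zs H => t + (h : G × G) + ((d.1 : G), (d.2 : G)) ∈ B)
  have hsum : ∑ h : H, (Df h).card = B.card * Nat.card (Zs H) ^ 2 := by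
    simp only [Df, card_filter]
    rw [sum_comm]
    have : ∀ d : Zs H × Zs H,
        ∑ h : H, (if t + (h : G × G) + ((d.1 : G), (d.2 : G)) ∈ B then 1 else 0) = B.card := by
      intro d
      rw [← card_filter]
      have hd : ((d.1 : G), (d.2 : G)) ∈ H := prod_mem d.1.2 d.2.2
      refine card_bij (fun h _ => t + (h : G × G) + ((d.1 : G), (d.2 : G))) ?_ ?_ ?_
      · intro h hh
        exact (mem_filter.1 hh).2
      · intro h _ h' _ e
        apply Subtype.ext
        exact add_left_cancel (add_right_cancel e)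
      · intro b hb
        refine ⟨⟨b - t - ((d.1 : G), (d.2 : G)), H.sub_mem (hB b hb) hd⟩, ?_, ?_⟩
        · rw [mem_filter]
          refine ⟨mem_univ _, ?_⟩
          have : t + (b - t - ((d.1 : G), (d.2 : G))) + ((d.1 : G), (d.2 : G)) = b := by abel
          simpa only [this] using hb
        · change t + (b - t - ((d.1 : G), (d.2 : G))) + ((d.1 : G), (d.2 : G)) = b
          abel
    rw [sum_congr rfl (fun d _ => this d), sum_const, card_univ, Fintype.card_prod,
      ← Nat.card_eq_fintype_card, smul_eq_mul]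
    ring
  obtain ⟨h, -, hh⟩ : ∃ h ∈ (univ : Finset H), B.card * Nat.card (Zs H) ^ 2 ≤
      Nat.card H * (Df h).card := by
    by_contra hcon
    push Not at hcon
    have h1 : ∑ h : H, (Nat.card H * (Df h).card) < ∑ _h : H, B.card * Nat.card (Zs H) ^ 2 :=
      sum_lt_sum_of_nonempty ⟨0, mem_univ _⟩ hcon
    rw [← mul_sum, hsum, sum_const, card_univ, ← Nat.card_eq_fintype_card, smul_eq_mul] at h1
    exact lt_irrefl _ h1
  exact ⟨t + (h : G × G), Df h, fun d => by simp [Df], hh⟩

theorem CF.translate {A : Set (G × G)} (hA : CF A) (H : AddSubgroup (G × G)) (u : G × G)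
    {D : Set (Zs H × Zs H)} (hD : ∀ d ∈ D, u + (((d : Zs H × Zs H).1 : G), (d.2 : G)) ∈ A) :
    CF D := by
  intro x y z h1 h2 h3
  have e1 := hD _ h1
  have e2 := hD _ h2
  have e3 := hD _ h3
  have : (z : G) = 0 := by
    apply hA (u.1 + (x : G)) (u.2 + (y : G)) (z : G)
    · exact e1
    · have : (u.1 + (x : G), u.2 + (y : G) + (z : G)) = u + ((x : G), ((y + z : Zs H) : G)) := by
        refine Prod.ext rfl ?_
        simp [add_assoc]
      rw [this]
      exact e2
    · have : (u.1 + (x : G) + (z : G), u.2 + (y : G)) = u + (((x + z : Zs H) : G), (y : G)) := by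
        refine Prod.ext ?_ rfl
        simp [add_assoc]
      rw [this]
      exact e3
  exact Subtype.ext this

theorem CF.isCornerFree {A : Set (G × G)} (hA : CF A) : IsCornerFree A := by
  intro x₁ y₁ x₂ y₂ h
  have h0 := h.fst_fst_mem
  have h1 := h.fst_snd_mem
  have h2 := h.snd_fst_mem
  have h3 := h.add_eq_add
  have e : x₂ - x₁ = 0 := by
    apply hA x₁ y₁ (x₂ - x₁) h0
    · have : y₁ + (x₂ - x₁) = y₂ := by
        have : y₂ = y₁ + x₂ - x₁ := by
          rw [add_comm y₁ x₂, ← h3]; abel
        rw [this]; abel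
      rw [this]
      exact h1
    · have : x₁ + (x₂ - x₁) = x₂ := by abel
      rw [this]
      exact h2
  exact (sub_eq_zero.1 e).symm

end Q153.PC
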