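import Pool.Agent.Q153.PC.Coset
import Pool.Agent.TH404.Tor.Final
import Pool.Agent.H217R3.AK.Bsg

/-! # Corner-free sets with large additive energy -/

set_option autoImplicit false

open Finset
open scoped Pointwise

namespace Q153.PC

abbrev V (n : ℕ) := Fin n → ZMod 2

/-- `A` contains no nontrivial corner `(x, y), (x, y + z), (x + z, y)` -/
def CornerFree {n : ℕ} (A : Finset (V n × V n)) : Prop :=
  ∀ x y z : V n, (x, y) ∈ A → (x, y + z) ∈ A → (x + z, y) ∈ A → z = 0

/-- the exponent in the theorem of Marton's conjecture -/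
def N : ℕ := 41005 * (Nat.log 2 2 + 1)

/-- the number of cosets -/
noncomputable def P (K : ℝ) : ℝ := (2 * (2 ^ 22 * K ^ 10)) ^ N

theorem neg_eq_V {n : ℕ} (p : V n × V n) : -p = p := by
  have : ∀ a : ZMod 2, -a = a := by decide
  refine Prod.ext ?_ ?_ <;> funext i <;> exact this _

theorem sub_eq_V {n : ℕ} (B : Finset (V n × V n)) : B - B = B + B := by
  have h : -B = B := by
    ext p
    rw [Finset.mem_neg']
    rw [neg_eq_V]
  rw [sub_eq_add_neg, h]

theorem tors {n : ℕ} (p : V n × V n) : (2 : ℕ) • p = 0 := by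
  have : ∀ a : ZMod 2, (2 : ℕ) • a = 0 := by decide
  refine Prod.ext ?_ ?_ <;> funext i
  · exact this _
  · exact this _

theorem core {n : ℕ} (A : Finset (V n × V n)) (hne : A.Nonempty)
    (hA : CornerFree A) (K : ℝ) (hK : 0 < K)
    (hE : (A.card : ℝ) ^ 3 ≤ K * (A.addEnergy A : ℕ)) :
    ∃ (Z : AddSubgroup (V n)) (D : Finset (Z × Z)), CF (D : Set (Z × Z)) ∧
      ((Nat.card Z : ℝ)) ^ 2 ≤ P K * D.card ∧
      (A.card : ℝ) ^ 2 ≤ 64 * K ^ 2 * P K ^ 2 * 8 ^ n * (Nat.card Z : ℝ) := by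
  classical
  obtain ⟨B, hBA, hBne, hB1, hB2⟩ := Pool.Agent.H217R3.AK.bsg A hne K hK hE
  rw [sub_eq_V] at hB2
  obtain ⟨H, T, hfin, hH, hT, hcov⟩ := Pool.Agent.TH404.Tor.upper 2 (by norm_num) tors _ B hBne hB2
  have hBpos : (0 : ℝ) < B.card := by exact_mod_cast hBne.card_pos
  -- a popular coset
  obtain ⟨t, htT, ht⟩ : ∃ t ∈ T, B.card ≤ T.card * (B.filter (fun b => b - t ∈ H)).card := by
    by_contra hcon
    push Not at hcon
    have h1 : B ⊆ T.biUnion (fun t => B.filter (fun b => b - t ∈ H)) := by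
      intro b hb
      obtain ⟨t, ht, hbt⟩ := hcov b hb
      exact mem_biUnion.2 ⟨t, ht, mem_filter.2 ⟨hb, hbt⟩⟩
    have h2 : B.card ≤ ∑ t ∈ T, (B.filter (fun b => b - t ∈ H)).card :=
      (card_le_card h1).trans card_biUnion_le
    have hTne : T.Nonempty := by
      obtain ⟨b, hb⟩ := hBne
      obtain ⟨t, ht, -⟩ := hcov b hb
      exact ⟨t, ht⟩
    have h3 : ∑ t ∈ T, T.card * (B.filter (fun b => b - t ∈ H)).card < ∑ _t ∈ T, B.card :=
      sum_lt_sum_of_nonempty hTne hcon
    rw [← mul_sum, sum_const, smul_eq_mul] at h3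
    exact absurd (Nat.mul_le_mul_left T.card h2) (not_le.2 h3)
  set Bt := B.filter (fun b => b - t ∈ H) with hBt
  obtain ⟨u, D, hD, hDc⟩ := exists_translate H Bt t (fun b hb => (mem_filter.1 hb).2)
  have hBtpos : 0 < Bt.card := by
    rcases Nat.eq_zero_or_pos Bt.card with h0 | h0
    · rw [h0, mul_zero] at ht
      exact absurd ht (not_le.2 hBne.card_pos)
    · exact h0
  have hBtpos' : (0 : ℝ) < Bt.card := by exact_mod_cast hBtpos
  have hTP : (T.card : ℝ) ≤ P K := hT
  have htR : (B.card : ℝ) ≤ T.card * Bt.card := by exact_mod_cast ht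
  have hHB : (Nat.card H : ℝ) ≤ B.card := by exact_mod_cast hH
  have hDR : (Bt.card : ℝ) * (Nat.card (Zs H) : ℝ) ^ 2 ≤ Nat.card H * D.card := by
    exact_mod_cast hDc
  have hP0 : 0 ≤ P K := le_trans (Nat.cast_nonneg _) hTP
  refine ⟨Zs H, D, ?_, ?_, ?_⟩
  · refine CF.translate (A := (A : Set (V n × V n))) (fun x y z h1 h2 h3 => hA x y z h1 h2 h3) H u ?_
    intro d hd
    exact hBA ((filter_subset _ _) ((hD d).1 hd))
  · have h1 : (Bt.card : ℝ) * (Nat.card (Zs H) : ℝ) ^ 2 ≤ Bt.card * (P K * D.card) := by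
      calc (Bt.card : ℝ) * (Nat.card (Zs H) : ℝ) ^ 2 ≤ Nat.card H * D.card := hDR
        _ ≤ (T.card * Bt.card) * D.card :=
            mul_le_mul_of_nonneg_right (hHB.trans htR) (Nat.cast_nonneg _)
        _ ≤ (P K * Bt.card) * D.card := by gcongr
        _ = Bt.card * (P K * D.card) := by ring
    exact le_of_mul_le_mul_left h1 hBtpos'
  · have hBH : Bt.card ≤ Nat.card H := by
      have : Fintype H := Fintype.ofFinite _
      rw [Nat.card_eq_fintype_card, ← card_univ]
      refine card_le_card_of_injOn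
        (fun b => if h : b - t ∈ H then (⟨b - t, h⟩ : H) else 0) (fun _ _ => mem_coe.2 (mem_univ _)) ?_
      intro b hb c hc e
      have hb' := (mem_filter.1 (mem_coe.1 hb)).2
      have hc' := (mem_filter.1 (mem_coe.1 hc)).2
      simp only [hb', hc', dif_pos] at e
      exact sub_left_injective (congrArg Subtype.val e)
    have hBHR : (Bt.card : ℝ) ≤ Nat.card H := by exact_mod_cast hBH
    have h1 : (A.card : ℝ) ≤ 8 * K * P K * Nat.card H := by
      calc (A.card : ℝ) ≤ 8 * K * B.card := hB1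
        _ ≤ 8 * K * (T.card * Bt.card) := by gcongr
        _ ≤ 8 * K * (P K * Nat.card H) := by gcongr
        _ = _ := by ring
    have h2 : (Nat.card H : ℝ) ^ 2 ≤ 8 ^ n * Nat.card (Zs H) := by
      have h3 := card_sq_le H
      have h4 : Nat.card (V n) = 2 ^ n := by
        rw [Nat.card_eq_fintype_card, Fintype.card_fun, ZMod.card, Fintype.card_fin]
      rw [h4] at h3
      have h5 : (2 ^ n) ^ 3 = 8 ^ n := by
        rw [← pow_mul, mul_comm, pow_mul]; norm_num
      rw [h5] at h3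
      exact_mod_cast h3
    calc (A.card : ℝ) ^ 2 ≤ (8 * K * P K * Nat.card H) ^ 2 :=
          pow_le_pow_left₀ (Nat.cast_nonneg _) h1 2
      _ = 64 * K ^ 2 * P K ^ 2 * (Nat.card H : ℝ) ^ 2 := by ring
      _ ≤ 64 * K ^ 2 * P K ^ 2 * (8 ^ n * Nat.card (Zs H)) := by gcongr
      _ = _ := by ring

/-- subgroups of `F_2^n` are isomorphic to some `F_2^m` -/
theorem transfer {n : ℕ} (Z : AddSubgroup (V n)) (D : Finset (Z × Z)) (hD : CF (D : Set (Z × Z))) :
    ∃ (m : ℕ) (A : Finset (V m × V m)), Nat.card Z = 2 ^ m ∧ A.card = D.card ∧ CornerFree A := by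
  classical
  have h2 : ∀ z : Z, (2 : ℕ) • z = 0 := by
    intro z
    apply Subtype.ext
    funext i
    have : ∀ a : ZMod 2, (2 : ℕ) • a = 0 := by decide
    exact this _
  letI : Module (ZMod 2) Z := AddCommGroup.zmodModule h2
  have : Module.Finite (ZMod 2) Z := Module.Finite.of_finite
  let m := Module.finrank (ZMod 2) Z
  let e : Z ≃ₗ[ZMod 2] (Fin m → ZMod 2) := (Module.finBasis (ZMod 2) Z).equivFun
  refine ⟨m, D.map ((Equiv.prodCongr e.toEquiv e.toEquiv).toEmbedding), ?_, card_map _, ?_⟩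
  · rw [Nat.card_congr e.toEquiv, Nat.card_eq_fintype_card, Fintype.card_fun, ZMod.card,
      Fintype.card_fin]
  · intro x y z h1 h2 h3
    have key : ∀ a b : V m, (a, b) ∈ D.map ((Equiv.prodCongr e.toEquiv e.toEquiv).toEmbedding) →
        (e.symm a, e.symm b) ∈ D := by
      intro a b hab
      obtain ⟨⟨c, d⟩, hcd, he⟩ := mem_map.1 hab
      have e1 : e c = a := congrArg Prod.fst he
      have e2 : e d = b := congrArg Prod.snd he
      rw [← e1, ← e2]
      simpa using hcd
    have k1 := key _ _ h1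
    have k2 := key _ _ h2
    have k3 := key _ _ h3
    rw [map_add] at k2 k3
    have := hD _ _ _ k1 k2 k3
    simpa using this

end Q153.PC
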