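import Pool.Agent.Q153.PC.Energy

/-! # Power saving for corner-free sets and additive energy -/

set_option autoImplicit false

open Finset
open scoped Pointwise

namespace Q153.PC

theorem P_pos {K : ℝ} (hK : 0 < K) : 0 < P K := by unfold P; positivity

/-- fixed additive energy: `|A|² ≤ C 8^n` -/
theorem fixed (K : ℝ) (hK : 0 < K) : ∃ C : ℝ, ∀ (n : ℕ) (A : Finset (V n × V n)), CornerFree A →
    (A.card : ℝ) ^ 3 ≤ K * (A.addEnergy A : ℕ) → (A.card : ℝ) ^ 2 ≤ C * 8 ^ n := by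
  classical
  have hP := P_pos hK
  refine ⟨64 * K ^ 2 * P K ^ 2 * (cornersTheoremBound (1 / P K) : ℝ), ?_⟩
  intro n A hA hE
  rcases A.eq_empty_or_nonempty with rfl | hne
  · have : (0 : ℝ) ≤ 64 * K ^ 2 * P K ^ 2 * (cornersTheoremBound (1 / P K) : ℝ) * 8 ^ n := by
      positivity
    simpa using this
  obtain ⟨Z, D, hD, h1, h2⟩ := core A hne hA K hK hE
  have hlt : Nat.card Z < cornersTheoremBound (1 / P K) := by
    by_contra hcon
    push Not at hcon
    have : Fintype Z := Fintype.ofFinite _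
    have hc := corners_theorem (G := Z) (1 / P K) (by positivity)
      (by rw [← Nat.card_eq_fintype_card]; exact hcon) D (by
        rw [← Nat.card_eq_fintype_card, div_mul_eq_mul_div, one_mul, div_le_iff₀ hP]
        linarith)
    exact hc hD.isCornerFree
  have hltR : (Nat.card Z : ℝ) ≤ (cornersTheoremBound (1 / P K) : ℝ) := by exact_mod_cast hlt.le
  calc (A.card : ℝ) ^ 2 ≤ 64 * K ^ 2 * P K ^ 2 * 8 ^ n * (Nat.card Z : ℝ) := h2
    _ ≤ 64 * K ^ 2 * P K ^ 2 * 8 ^ n * (cornersTheoremBound (1 / P K) : ℝ) := by gcongr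
    _ = _ := by ring

/-- the example `{((a, b), (c, a))}` -/
theorem example_sharp (m : ℕ) : ∃ A : Finset (V (m + m) × V (m + m)), CornerFree A ∧
    A.card = 8 ^ m ∧ A + A = A := by
  classical
  let S : Set (V (m + m) × V (m + m)) := {p | ∀ i : Fin m, p.2 (Fin.natAdd m i) = p.1 (Fin.castAdd m i)}
  let A : Finset (V (m + m) × V (m + m)) := univ.filter (fun p => p ∈ S)
  have hmem : ∀ p, p ∈ A ↔ ∀ i : Fin m, p.2 (Fin.natAdd m i) = p.1 (Fin.castAdd m i) := by
    intro p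
    simp [A, S]
  refine ⟨A, ?_, ?_, ?_⟩
  · intro x y z h1 h2 h3
    rw [hmem] at h1 h2 h3
    funext i
    refine Fin.addCases (fun j => ?_) (fun j => ?_) i
    · have e1 : y (Fin.natAdd m j) = x (Fin.castAdd m j) := h1 j
      have e3 : y (Fin.natAdd m j) = x (Fin.castAdd m j) + z (Fin.castAdd m j) := h3 j
      rw [e1] at e3
      have e4 : x (Fin.castAdd m j) + 0 = x (Fin.castAdd m j) + z (Fin.castAdd m j) := by
        rw [add_zero]; exact e3
      exact (add_left_cancel e4).symm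
    · have e1 : y (Fin.natAdd m j) = x (Fin.castAdd m j) := h1 j
      have e2 : y (Fin.natAdd m j) + z (Fin.natAdd m j) = x (Fin.castAdd m j) := h2 j
      rw [e1] at e2
      have e4 : x (Fin.castAdd m j) + z (Fin.natAdd m j) = x (Fin.castAdd m j) + 0 := by
        rw [add_zero]; exact e2
      exact add_left_cancel e4
  · have hc : A.card = (univ : Finset (V m × V m × V m)).card := by
      symm
      refine card_bij (fun q _ => (Fin.append q.1 q.2.1, Fin.append q.2.2 q.1)) ?_ ?_ ?_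
      · intro q _
        rw [hmem]
        intro i
        simp only [Fin.append_left, Fin.append_right]
      · intro q _ q' _ e
        have e1 : Fin.append q.1 q.2.1 = Fin.append q'.1 q'.2.1 := congrArg Prod.fst e
        have e2 : Fin.append q.2.2 q.1 = Fin.append q'.2.2 q'.1 := congrArg Prod.snd e
        refine Prod.ext ?_ (Prod.ext ?_ ?_) <;> funext i
        · have := congrFun e1 (Fin.castAdd m i)
          simpa only [Fin.append_left] using this
        · have := congrFun e1 (Fin.natAdd m i)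
          simpa only [Fin.append_right] using this
        · have := congrFun e2 (Fin.castAdd m i)
          simpa only [Fin.append_left] using this
      · intro p hp
        rw [hmem] at hp
        refine ⟨(fun i => p.1 (Fin.castAdd m i), fun i => p.1 (Fin.natAdd m i),
          fun i => p.2 (Fin.castAdd m i)), mem_univ _, ?_⟩
        refine Prod.ext ?_ ?_ <;> funext i <;> refine Fin.addCases (fun j => ?_) (fun j => ?_) i
        · simp only [Fin.append_left]
        · simp only [Fin.append_right]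
        · simp only [Fin.append_left]
        · simp only [Fin.append_right, hp j]
    rw [hc, card_univ, Fintype.card_prod, Fintype.card_prod, Fintype.card_fun, ZMod.card,
      Fintype.card_fin, ← mul_pow, ← mul_pow]
    norm_num
  · ext p
    rw [mem_add]
    constructor
    · rintro ⟨a, ha, b, hb, rfl⟩
      rw [hmem] at ha hb ⊢
      intro i
      simp only [Prod.fst_add, Prod.snd_add, Pi.add_apply]
      rw [ha i, hb i]
    · intro hp
      refine ⟨p, hp, 0, ?_, add_zero _⟩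
      rw [hmem]
      intro i
      rfl

theorem pow_le_real (m : ℕ) (c : ℝ) : (4 : ℝ) ^ ((1 - c) * (m : ℝ)) =
    ((2 : ℝ) ^ m) ^ 2 / ((2 : ℝ) ^ m) ^ (2 * c) := by
  have h2 : (0 : ℝ) < 2 ^ m := by positivity
  rw [← Real.rpow_natCast (2 ^ m : ℝ) 2, ← Real.rpow_sub h2, ← Real.rpow_natCast 2 m,
    ← Real.rpow_mul (by norm_num)]
  have h4 : (4 : ℝ) = 2 ^ (2 : ℝ) := by norm_num
  rw [h4, ← Real.rpow_mul (by norm_num)]
  congr 1
  push_cast
  ring

/-- power saving implies a polynomial dependence on the energy -/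
theorem forward (h : ∃ C c : ℝ, 0 < C ∧ 0 < c ∧ ∀ n : ℕ, 1 ≤ n → ∀ A : Finset (V n × V n),
      CornerFree A → (A.card : ℝ) ≤ C * 4 ^ ((1 - c) * (n : ℝ))) :
    ∃ (C : ℝ) (d : ℕ), 0 < C ∧ ∀ (n : ℕ) (A : Finset (V n × V n)), CornerFree A →
      ∀ K : ℝ, 1 ≤ K → (A.card : ℝ) ^ 3 ≤ K * (A.addEnergy A : ℕ) →
        (A.card : ℝ) ^ 2 ≤ C * K ^ d * 8 ^ n := by
  classical
  obtain ⟨C, c, hC, hc, hb⟩ := h
  -- the number of elements of a corner-free set in terms of the size of the group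
  obtain ⟨M, hM⟩ : ∃ M, M = N := ⟨_, rfl⟩
  set C1 : ℝ := max C 1 with hC1
  have hC11 : 1 ≤ C1 := le_max_right _ _
  obtain ⟨j, hj⟩ := exists_nat_ge (1 / (2 * c))
  refine ⟨64 * (2 ^ (23 * M)) ^ (2 + j) * C1 ^ j, 2 + 10 * M * (2 + j), by positivity, ?_⟩
  intro n A hA K hK hE
  have hK0 : 0 < K := lt_of_lt_of_le one_pos hK
  rcases A.eq_empty_or_nonempty with rfl | hne
  · have : (0 : ℝ) ≤ 64 * (2 ^ (23 * M)) ^ (2 + j) * C1 ^ j * K ^ (2 + 10 * M * (2 + j)) * 8 ^ n := by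
      positivity
    simpa using this
  obtain ⟨Z, D, hD, h1, h2⟩ := core A hne hA K hK0 hE
  obtain ⟨m, A', hZ, hA', hcf⟩ := transfer Z D hD
  have hP := P_pos hK0
  have hPv : P K = 2 ^ (23 * M) * K ^ (10 * M) := by
    unfold P
    rw [← hM, show (2 : ℝ) * (2 ^ 22 * K ^ 10) = 2 ^ 23 * K ^ 10 by ring, mul_pow, ← pow_mul, ← pow_mul]
  have hP1 : 1 ≤ P K := by
    rw [hPv]
    have t1 : (1 : ℝ) ≤ 2 ^ (23 * M) := one_le_pow₀ one_le_two
    have t2 : (1 : ℝ) ≤ K ^ (10 * M) := one_le_pow₀ hK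
    clear hM hPv
    nlinarith [mul_le_mul t1 t2 zero_le_one (le_trans zero_le_one t1)]
  have hbd : (A'.card : ℝ) ≤ C1 * 4 ^ ((1 - c) * (m : ℝ)) := by
    rcases Nat.eq_zero_or_pos m with rfl | hm
    · have h3 : A'.card ≤ 1 := by
        refine (card_le_univ _).trans ?_
        simp
      have h4 : (A'.card : ℝ) ≤ 1 := by exact_mod_cast h3
      simpa using h4.trans hC11
    · refine (hb m hm A' hcf).trans ?_
      exact mul_le_mul_of_nonneg_right (le_max_left _ _) (by positivity)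
  have hZpos : (0 : ℝ) < 2 ^ m := by positivity
  have hZR : (Nat.card Z : ℝ) = 2 ^ m := by rw [hZ]; push_cast; ring
  rw [← hA'] at h1
  rw [hZR] at h1 h2
  rw [pow_le_real] at hbd
  -- |Z|^{2c} ≤ P C1
  have h5 : ((2 : ℝ) ^ m) ^ (2 * c) ≤ P K * C1 := by
    have h6 : ((2 : ℝ) ^ m) ^ 2 ≤ P K * (C1 * (((2 : ℝ) ^ m) ^ 2 / ((2 : ℝ) ^ m) ^ (2 * c))) :=
      h1.trans (mul_le_mul_of_nonneg_left hbd hP.le)
    have hq : (0 : ℝ) < ((2 : ℝ) ^ m) ^ (2 * c) := Real.rpow_pos_of_pos hZpos _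
    have h7 : P K * (C1 * (((2 : ℝ) ^ m) ^ 2 / ((2 : ℝ) ^ m) ^ (2 * c))) =
        (P K * C1) * ((2 : ℝ) ^ m) ^ 2 / ((2 : ℝ) ^ m) ^ (2 * c) := by ring
    rw [h7, le_div_iff₀ hq] at h6
    have h8 : (0 : ℝ) < ((2 : ℝ) ^ m) ^ 2 := by positivity
    have h9 : ((2 : ℝ) ^ m) ^ 2 * ((2 : ℝ) ^ m) ^ (2 * c) ≤ ((2 : ℝ) ^ m) ^ 2 * (P K * C1) := by
      linarith
    exact le_of_mul_le_mul_left h9 h8
  have h10 : (2 : ℝ) ^ m ≤ (P K * C1) ^ j := by
    have hb1 : 1 ≤ P K * C1 := one_le_mul_of_one_le_of_one_le hP1 hC11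
    calc (2 : ℝ) ^ m = (((2 : ℝ) ^ m) ^ (2 * c)) ^ (1 / (2 * c)) := by
          rw [← Real.rpow_mul hZpos.le, mul_one_div_cancel (by positivity), Real.rpow_one]
      _ ≤ (P K * C1) ^ (1 / (2 * c)) :=
          Real.rpow_le_rpow (by positivity) h5 (by positivity)
      _ ≤ (P K * C1) ^ (j : ℝ) := Real.rpow_le_rpow_of_exponent_le hb1 hj
      _ = (P K * C1) ^ j := Real.rpow_natCast _ _
  clear h5 hbd h1
  generalize P K = Q at h2 h10 hPv hP hP1
  calc (A.card : ℝ) ^ 2 ≤ 64 * K ^ 2 * Q ^ 2 * 8 ^ n * 2 ^ m := h2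
    _ ≤ 64 * K ^ 2 * Q ^ 2 * 8 ^ n * (Q * C1) ^ j := by gcongr
    _ = 64 * K ^ 2 * Q ^ (2 + j) * C1 ^ j * 8 ^ n := by rw [mul_pow, pow_add]; ring
    _ = 64 * (2 ^ (23 * M)) ^ (2 + j) * C1 ^ j * K ^ (2 + 10 * M * (2 + j)) * 8 ^ n := by
        rw [hPv, mul_pow, ← pow_mul K, pow_add K 2]; ring

/-- a polynomial dependence on the energy implies power saving -/
theorem backward (h : ∃ (C : ℝ) (d : ℕ), 0 < C ∧ ∀ (n : ℕ) (A : Finset (V n × V n)),
      CornerFree A → ∀ K : ℝ, 1 ≤ K → (A.card : ℝ) ^ 3 ≤ K * (A.addEnergy A : ℕ) →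
        (A.card : ℝ) ^ 2 ≤ C * K ^ d * 8 ^ n) :
    ∃ C c : ℝ, 0 < C ∧ 0 < c ∧ ∀ n : ℕ, 1 ≤ n → ∀ A : Finset (V n × V n),
      CornerFree A → (A.card : ℝ) ≤ C * 4 ^ ((1 - c) * (n : ℝ)) := by
  classical
  obtain ⟨C, d, hC, hb⟩ := h
  set C1 : ℝ := max C 1 with hC1
  have hC11 : 1 ≤ C1 := le_max_right _ _
  refine ⟨C1, 1 / (2 * (d + 2)), by positivity, by positivity, ?_⟩
  intro n _ A hA
  rcases A.eq_empty_or_nonempty with rfl | hne
  · have : (0 : ℝ) ≤ C1 * 4 ^ ((1 - 1 / (2 * ((d : ℝ) + 2))) * (n : ℝ)) := by positivity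
    simpa using this
  have hApos : (0 : ℝ) < A.card := by exact_mod_cast hne.card_pos
  have hcardV : Fintype.card (V n × V n) = 4 ^ n := by
    rw [Fintype.card_prod, Fintype.card_fun, ZMod.card, Fintype.card_fin, ← mul_pow]
    norm_num
  have hA4 : (A.card : ℝ) ≤ 4 ^ n := by
    have := card_le_univ A
    rw [hcardV] at this
    exact_mod_cast this
  have hS4 : ((A + A).card : ℝ) ≤ 4 ^ n := by
    have := card_le_univ (A + A)
    rw [hcardV] at this
    exact_mod_cast this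
  have hE : (A.card : ℝ) ^ 3 ≤ (4 ^ n / A.card) * (A.addEnergy A : ℕ) := by
    have h1 := le_card_add_mul_addEnergy A A
    have h2 : (A.card : ℝ) ^ 2 * (A.card : ℝ) ^ 2 ≤ ((A + A).card : ℝ) * (A.addEnergy A : ℕ) := by
      exact_mod_cast h1
    rw [div_mul_eq_mul_div, le_div_iff₀ hApos]
    calc (A.card : ℝ) ^ 3 * A.card = (A.card : ℝ) ^ 2 * (A.card : ℝ) ^ 2 := by ring
      _ ≤ ((A + A).card : ℝ) * (A.addEnergy A : ℕ) := h2
      _ ≤ 4 ^ n * (A.addEnergy A : ℕ) := by gcongr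
  have hmain := hb n A hA (4 ^ n / A.card) (by rwa [one_le_div hApos]) hE
  have h3 : (A.card : ℝ) ^ (d + 2) ≤ C1 * ((4 : ℝ) ^ n) ^ d * 8 ^ n := by
    rw [div_pow] at hmain
    have hd : (0 : ℝ) < (A.card : ℝ) ^ d := by positivity
    calc (A.card : ℝ) ^ (d + 2) = (A.card : ℝ) ^ 2 * (A.card : ℝ) ^ d := by ring
      _ ≤ (C * ((4 ^ n) ^ d / (A.card : ℝ) ^ d) * 8 ^ n) * (A.card : ℝ) ^ d := by gcongr
      _ = C * ((4 : ℝ) ^ n) ^ d * 8 ^ n := by
          field_simp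
      _ ≤ C1 * ((4 : ℝ) ^ n) ^ d * 8 ^ n := by
          gcongr
          exact le_max_left _ _
  have h4 : C1 * ((4 : ℝ) ^ n) ^ d * 8 ^ n ≤ (C1 * 4 ^ ((1 - 1 / (2 * ((d : ℝ) + 2))) * (n : ℝ))) ^ (d + 2) := by
    rw [mul_pow, ← Real.rpow_natCast ((4 : ℝ) ^ _) (d + 2), ← Real.rpow_mul (by norm_num)]
    have e1 : (1 - 1 / (2 * ((d : ℝ) + 2))) * (n : ℝ) * ((d + 2 : ℕ) : ℝ) =
        (n : ℝ) * d + (3 / 2) * n := by
      push_cast
      field_simp
      ring
    rw [e1, Real.rpow_add (by norm_num)]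
    have e2 : (4 : ℝ) ^ ((n : ℝ) * d) = (4 ^ n) ^ d := by
      rw [Real.rpow_mul (by norm_num), Real.rpow_natCast, Real.rpow_natCast]
    have e3 : (4 : ℝ) ^ ((3 / 2) * (n : ℝ)) = 8 ^ n := by
      rw [Real.rpow_mul (by norm_num), Real.rpow_natCast]
      congr 1
      rw [show (4 : ℝ) = 2 ^ (2 : ℝ) by norm_num, ← Real.rpow_mul (by norm_num)]
      norm_num
    rw [e2, e3, mul_assoc]
    refine mul_le_mul_of_nonneg_right ?_ (by positivity)
    exact le_self_pow₀ hC11 (by omega)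
  exact le_of_pow_le_pow_left₀ (by omega) (by positivity) (h3.trans h4)

end Q153.PC
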